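import Pool.Agent.TH21.MS.H1

/-!
# Values of the modular invariant at points of curves with rational parameter

The modular Schanuel conjecture says in particular that `j (z_1), …, j (z_n)` are algebraically
independent if the `z_k` are algebraic, not CM points and in different orbits of `GL_2^+(ℚ)`. We
take `z_k = i f_k (q)` with a rational number `q` and prove for all but a very sparse set of `q`
that `j (z_1), …, j (z_n)` satisfy no polynomial relation of bounded degree whose integer
coefficients are bounded by a fixed power of the denominator bound. There are about `T ^ 2` rational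
numbers of denominator at most `T` in an interval; all but `C T ^ β` of them are good, for every
`β > 2 - 2 / ((d + 1) ^ n + 1)`.

The functions `f_k` are real analytic and positive, and no nontrivial integer combination of them is
`O (log t)`. Example (theorem `powers`): `f_k (t) = s_k t ^ r_k`, where those `s_k` which have the same
`r_k` are linearly independent over `ℚ`, so `z_k = i q ^ r_k` with different positive `r_k` (for
rational `r_k` these are algebraic numbers), or `z_k = i s_k q ^ r`.

Proof: the determinant method of helper818 for relations between values of analytic functions at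
rational points (`Pool.Agent.TH818.AR`); the independence of the functions is obtained from the
growth of their monomials. It uses that `j (i y)` is analytic and `log j (i y) = 2 π y + O (1)`.
-/

set_option autoImplicit false

open Set Filter

namespace Pool.Agent.Results.MP_47914d_nt.AlmostAllRationalParameters

/-- the normalised Eisenstein series of weight `4` -/
noncomputable def E4 (τ : ℂ) : ℂ :=
  1 + 240 * ∑' m : ℕ, ((ArithmeticFunction.sigma 3 (m + 1) : ℕ) : ℂ) *
    Complex.exp (2 * (Real.pi : ℂ) * Complex.I * τ) ^ (m + 1)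

/-- the normalised Eisenstein series of weight `6` -/
noncomputable def E6 (τ : ℂ) : ℂ :=
  1 - 504 * ∑' m : ℕ, ((ArithmeticFunction.sigma 5 (m + 1) : ℕ) : ℂ) *
    Complex.exp (2 * (Real.pi : ℂ) * Complex.I * τ) ^ (m + 1)

/-- the modular invariant `j`, normalised by `j (i) = 1728` -/
noncomputable def j (τ : ℂ) : ℂ := 1728 * E4 τ ^ 3 / (E4 τ ^ 3 - E6 τ ^ 2)

/-- The numbers `x_1, …, x_n` satisfy a nontrivial polynomial relation with integer coefficients of
absolute value at most `H`, of degree at most `d` in each variable. -/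
def Related {n : ℕ} (d : ℕ) (H : ℝ) (x : Fin n → ℂ) : Prop :=
  ∃ P : MvPolynomial (Fin n) ℤ, P ≠ 0 ∧ (∀ k, P.degreeOf k ≤ d) ∧ (∀ e, |((P.coeff e : ℤ) : ℝ)| ≤ H) ∧
    MvPolynomial.aeval x P = 0

/-- The rational numbers `q` in `[a, b]` with denominator at most `T` for which
`j (i f_1 (q)), …, j (i f_n (q))` satisfy a nontrivial polynomial relation of degree at most `d` in
each variable with integer coefficients of absolute value at most `T ^ A`. -/
def Bad {n : ℕ} (f : Fin n → ℝ → ℝ) (d : ℕ) (A a b T : ℝ) : Set ℚ :=
  {q : ℚ | (q : ℝ) ∈ Icc a b ∧ (q.den : ℝ) ≤ T ∧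
    Related d (T ^ A) (fun k => j (Complex.I * (f k q : ℂ)))}

/-- The number of bad rational numbers is at most `C T ^ β`, for every
`β > 2 - 2 / ((d + 1) ^ n + 1)`. -/
theorem result (n d : ℕ) (A a b β : ℝ) (hab : a < b)
    (hβ : 2 - 2 / (((d : ℝ) + 1) ^ n + 1) < β) (f : Fin n → ℝ → ℝ)
    (hf : ∀ k, AnalyticOnNhd ℝ (f k) (Ici a)) (hpos : ∀ k, ∀ t, a ≤ t → 0 < f k t)
    (hgrowth : ∀ c : Fin n → ℤ, c ≠ 0 →
      Tendsto (fun t => |∑ k, (c k : ℝ) * f k t| / Real.log t) atTop atTop) :
    ∃ C : ℝ, ∀ T : ℝ, 1 ≤ T →
      (Bad f d A a b T).Finite ∧ ((Bad f d A a b T).ncard : ℝ) ≤ C * T ^ β := by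
  obtain ⟨C, -, hC⟩ := Pool.Agent.TH21.MS.jmain f a hf hpos hgrowth d A a b le_rfl hab β
    (by rwa [Fintype.card_fin])
  exact ⟨C, hC⟩

/-- the hypothesis on the growth for the functions `s_k t ^ r_k` -/
theorem powers {n : ℕ} (s r : Fin n → ℝ) (hr : ∀ k, 0 < r k) (c : Fin n → ℤ)
    (hs : ∃ ρ, ∑ k ∈ Finset.univ.filter (fun k => r k = ρ), (c k : ℝ) * s k ≠ 0) :
    Tendsto (fun t => |∑ k, (c k : ℝ) * (s k * t ^ r k)| / Real.log t) atTop atTop :=
  Pool.Agent.TH21.MS.H_powers s r hr c hs

end Pool.Agent.Results.MP_47914d_nt.AlmostAllRationalParameters
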