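import Pool.Agent.TH21.MS.LadMain

/-!
# Points `z`, nomes `exp (-2πi z)` and values `j (z)`, `j' (z)`, `j'' (z)` for `z = i s x ^ ρ`, `x` rational

Let `0 < ρ_1 < … < ρ_m` be real numbers and, for every `i`, let `s_(i 1), …, s_(i p)` be positive real numbers which are
linearly independent over `ℚ`. For `n`-tuples `(x_1, …, x_n)` of positive rational numbers we consider the `m n p` points
`z = i s_(i k) x_l ^ ρ_i` of the upper half-plane. The modular Schanuel conjecture says that the field generated by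
the points and the values `j (z)` has transcendence degree at least `m n p`, if they are not CM and pairwise inequivalent
under `GL_2^+(ℚ)`.

We prove for almost all `n`-tuples of rational numbers that the following numbers satisfy no polynomial relation, even
approximately, of bounded degree and with integer coefficients bounded by any fixed power of the bound `T` of the
denominators: `π`, `log x_l`, powers `x_l ^ σ_1, …, x_l ^ σ_r` (for `1, σ_1, …, σ_r` linearly independent over `ℚ`), and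
`exp (-2πi z)`, `j (z)`, `j' (z)`, `j'' (z)` for all points `z` above. There are about `T ^ (2 n)` tuples with denominators at
most `T` in `[a, b]`, and all but `C T ^ (2 (n - 1) + β)` of them are good, `β < 2`. Two cases:

* `1, ρ_1, …, ρ_m` linearly independent over `ℚ` and `σ = ρ`: the numbers contain the points `z` (up to the factors
  `i s_(i k)`) together with the values `j (z)`, as in the conjecture;
* `r = 0`, `ρ_i` rational and `s_(i k)` algebraic: the points `z` are algebraic, and the Grothendieck-André period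
  conjecture for 1-motives predicts that the numbers `π`, `log x_l`, `exp (-2πi z)`, `j (z)`, `j' (z)`, `j'' (z)` are
  algebraically independent (for generic `x`).

Proof: the determinant method of helper818 (`Pool.Agent.TH818.AP`) and lower bounds near the cusp for polynomials in
all these functions together (`Pool.Agent.TH21.MS.Lad`).
-/

set_option autoImplicit false

open Set Filter

namespace Pool.Agent.Results.MP_47914d_nt.PointsNomesJets

/-- the normalised Eisenstein series of weight `4` -/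
noncomputable def E4 (τ : ℂ) : ℂ :=
  1 + 240 * ∑' m : ℕ, ((ArithmeticFunction.sigma 3 (m + 1) : ℕ) : ℂ) *
    Complex.exp (2 * (Real.pi : ℂ) * Complex.I * τ) ^ (m + 1)

/-- the normalised Eisenstein series of weight `6` -/
noncomputable def E6 (τ : ℂ) : ℂ :=
  1 - 504 * ∑' m : ℕ, ((ArithmeticFunction.sigma 5 (m + 1) : ℕ) : ℂ) *
    Complex.exp (2 * (Real.pi : ℂ) * Complex.I * τ) ^ (m + 1)

/-- the modular invariant `j = q⁻¹ + 744 + 196884 q + ⋯` -/
noncomputable def j (τ : ℂ) : ℂ := 1728 * E4 τ ^ 3 / (E4 τ ^ 3 - E6 τ ^ 2)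

/-- `exp (-2πi z), j (z), j' (z), j'' (z)` (complex derivatives) -/
noncomputable def jet (z : ℂ) : Fin 4 → ℂ :=
  ![Complex.exp (-(2 * (Real.pi : ℂ) * Complex.I * z)), j z, deriv j z, deriv (deriv j) z]

/-- the `(4 m p + r + 1) n + 1` numbers: `π`; for every `l ≤ n` the numbers `log x_l` and `x_l ^ σ_i`; and
`exp (-2πi z), j (z), j' (z), j'' (z)` at the points `z = i s_(i k) x_l ^ ρ_i` -/
noncomputable def numbers {r m p n : ℕ} (σ : Fin r → ℝ) (ρ : Fin m → ℝ) (s : Fin m → Fin p → ℝ) (x : Fin n → ℚ) :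
    Option (Fin n × (Option (Fin r) ⊕ (Fin m × (Fin p × Fin 4)))) → ℂ
  | none => (Real.pi : ℂ)
  | some (l, Sum.inl none) => (Real.log (x l) : ℂ)
  | some (l, Sum.inl (some i)) => (((x l : ℝ) ^ σ i : ℝ) : ℂ)
  | some (l, Sum.inr (i, k, q)) => jet (Complex.I * ((s i k * (x l : ℝ) ^ ρ i : ℝ) : ℂ)) q

/-- The `n`-tuples `x` of rational numbers in `[a, b]` with denominators at most `T` for which some nonzero
polynomial with integer coefficients of absolute value at most `T ^ A`, of degree at most `d` in each variable, takes at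
the `(4 m p + r + 1) n + 1` numbers a value of absolute value at most `T ^ (-B)`. -/
def Exceptional {r m p : ℕ} (n d : ℕ) (σ : Fin r → ℝ) (ρ : Fin m → ℝ) (s : Fin m → Fin p → ℝ) (a b A B T : ℝ) :
    Set (Fin n → ℚ) :=
  {x | (∀ l, (x l : ℝ) ∈ Icc a b ∧ ((x l).den : ℝ) ≤ T) ∧
    ∃ P : MvPolynomial (Option (Fin n × (Option (Fin r) ⊕ (Fin m × (Fin p × Fin 4))))) ℤ, P ≠ 0 ∧
      (∀ i, P.degreeOf i ≤ d) ∧ (∀ e, |((P.coeff e : ℤ) : ℝ)| ≤ T ^ A) ∧
      ‖MvPolynomial.aeval (numbers σ ρ s x) P‖ ≤ T ^ (-B)}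

/-- Let `[a, b] ⊂ (0, ∞)`, `n ≥ 1`, `d`, `A ≥ 0`, `0 < ρ_1 < … < ρ_m`, let `1, σ_1, …, σ_r` be linearly independent over
`ℚ`, let the `s_(i k)` be positive and, for every `i`, linearly independent over `ℚ`, and
`β > 2 - 2 / ((d + 1)^((4 m p + r + 1) n + 1) + 1)`. There are `B` and `C` such that for all `T ≥ 1` the number of
exceptional `n`-tuples is at most `C T^(2(n - 1) + β)`. -/
theorem result (r m p n d : ℕ) (hn : 1 ≤ n) (σ : Fin r → ℝ) (ρ : Fin m → ℝ) (s : Fin m → Fin p → ℝ)
    (hρ0 : ∀ i, 0 < ρ i) (hρ : StrictMono ρ)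
    (hσ : ∀ (c0 : ℤ) (c : Fin r → ℤ), (c0 : ℝ) + ∑ k, (c k : ℝ) * σ k = 0 → c0 = 0 ∧ c = 0)
    (hs0 : ∀ i k, 0 < s i k) (hs : ∀ i, ∀ c : Fin p → ℤ, ∑ k, (c k : ℝ) * s i k = 0 → c = 0)
    (A a b β : ℝ) (hA : 0 ≤ A) (ha : 0 < a) (hab : a < b)
    (hβ : 2 - 2 / (((d : ℝ) + 1) ^ ((4 * m * p + r + 1) * n + 1) + 1) < β) :
    ∃ B C : ℝ, ∀ T : ℝ, 1 ≤ T → (Exceptional n d σ ρ s a b A B T).Finite ∧
      ((Exceptional n d σ ρ s a b A B T).ncard : ℝ) ≤ C * T ^ (2 * ((n : ℝ) - 1) + β) := by
  obtain ⟨B, C, h⟩ := Pool.Agent.TH21.MS.ladmain σ ρ s hρ0 hρ hσ hs0 hs n d hn A a b hA ha hab β hβ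
  refine ⟨B, C, fun T hT => ?_⟩
  have hset : Exceptional n d σ ρ s a b A B T = Pool.Agent.TH21.MS.ExcL n d σ ρ s a b A B T := by
    have heq : ∀ x : Fin n → ℚ, numbers σ ρ s x = Pool.Agent.TH21.MS.numL σ ρ s x := by
      intro x
      funext i
      rcases i with _ | ⟨l, (_ | i) | ⟨i, k, q⟩⟩
      · rfl
      · rfl
      · rfl
      · rfl
    ext x
    simp only [Exceptional, Pool.Agent.TH21.MS.ExcL, Set.mem_ofPred_eq, heq]
  rw [hset]
  exact h T hT

end Pool.Agent.Results.MP_47914d_nt.PointsNomesJets
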