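import Pool.Agent.TH828.MJ.Half2
import Pool.Agent.TH828.MJ.Count

/-!
# Points of the upper half-plane with rational or algebraic `j`-invariant

Every real number different from `0` and `1728` is the value `j (z)` at a point `z` with `Re z = 0` or `Re z = 1/2`,
which depends analytically on it. For points `z_1, …, z_n` with rational (or, more generally, algebraic) values
`j (z_l)` the modular Schanuel conjecture says that `z_1, …, z_n` are algebraically independent if they are not CM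
points and pairwise inequivalent under `GL_2^+(ℚ)`; one expects that even the `4 n + 1` numbers `π`, `exp (2πi z_l)`,
`z_l`, `j' (z_l)`, `j'' (z_l)` are algebraically independent.

We prove for almost all `n`-tuples of rational numbers `q_l = j (z_l)` that the `4 n + 1` numbers `π`, `exp (2πi z_l)`,
`Im z_l`, `j' (z_l)`, `j'' (z_l)` satisfy no polynomial relation, even approximately, of bounded degree and with integer
coefficients bounded by any fixed power of the bound `T` of the denominators: there are about `T^(2n)` tuples with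
denominators at most `T`, and all but `C T^(2(n-1)+β)` of them are good, `β < 2`. More generally
`q_l = ψ_l (j (z_l))` with polynomials `ψ_l`.

Proof: the determinant method of helper818 (`Pool.Agent.TH818.AP`) and Mahler's theorem on the algebraic independence
of `x`, `log x`, `J (x)`, `D J (x)`, `D² J (x)`, proved by helper21 (`Pool.Agent.TH21.MS.Mahler`) for the imaginary
axis and carried over to the other line by the identity theorem.
-/

set_option autoImplicit false

open Set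

namespace Pool.Agent.Results.MP_47914d_nt.RationalInvariants

/-- the normalised Eisenstein series of weight `4` -/
noncomputable def E4 (τ : ℂ) : ℂ :=
  1 + 240 * ∑' m : ℕ, ((ArithmeticFunction.sigma 3 (m + 1) : ℕ) : ℂ) *
    Complex.exp (2 * (Real.pi : ℂ) * Complex.I * τ) ^ (m + 1)

/-- the normalised Eisenstein series of weight `6` -/
noncomputable def E6 (τ : ℂ) : ℂ :=
  1 - 504 * ∑' m : ℕ, ((ArithmeticFunction.sigma 5 (m + 1) : ℕ) : ℂ) *
    Complex.exp (2 * (Real.pi : ℂ) * Complex.I * τ) ^ (m + 1)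

/-- the modular invariant `j = q⁻¹ + 744 + 196884 q + ⋯` -/
noncomputable def j (τ : ℂ) : ℂ := 1728 * E4 τ ^ 3 / (E4 τ ^ 3 - E6 τ ^ 2)

/-- the point `m / 2 + i y` (`m = 0` and `m = 1`: the lines `Re z = 0` and `Re z = 1/2`) -/
noncomputable def point (m : ℤ) (y : ℝ) : ℂ := (m : ℂ) / 2 + Complex.I * (y : ℂ)

/-- `y` is real analytic on `[a, b]`, with positive values, and the point `z = m / 2 + i y (t)` satisfies
`ψ (j (z)) = t`. For `ψ = X` the function `t ↦ z` is a branch of the inverse function of `j`. -/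
def IsBranch (ψ : Polynomial ℝ) (m : ℤ) (a b : ℝ) (y : ℝ → ℝ) : Prop :=
  AnalyticOnNhd ℝ y (Icc a b) ∧
    ∀ t ∈ Icc a b, 0 < y t ∧ Polynomial.aeval (j (point m (y t))) ψ = (t : ℂ)

/-- `e^(2πi z)`, `Im z`, `j' (z)`, `j'' (z)` (complex derivatives) -/
noncomputable def four (z : ℂ) : Fin 4 → ℂ :=
  ![Complex.exp (2 * (Real.pi : ℂ) * Complex.I * z), (z.im : ℂ), deriv j z, deriv (deriv j) z]

/-- the `4 n + 1` numbers `π` and `e^(2πi z_l)`, `Im z_l`, `j' (z_l)`, `j'' (z_l)`, where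
`z_l = m_l / 2 + i y_l (q_l)` -/
noncomputable def numbers {n : ℕ} (m : Fin n → ℤ) (y : Fin n → ℝ → ℝ) (q : Fin n → ℚ)
    (i : Option (Fin n × Fin 4)) : ℂ :=
  i.elim (Real.pi : ℂ) fun p => four (point (m p.1) (y p.1 (q p.1))) p.2

/-- The `n`-tuples `q` of rational numbers, `q_l` in `[a_l, b_l]`, with denominators at most `T` for which some nonzero
polynomial in `4 n + 1` variables with integer coefficients of absolute value at most `T ^ A`, of degree at most `d`
in each variable, takes at the `4 n + 1` numbers a value of absolute value at most `T ^ (-B)`. -/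
def Exceptional {n : ℕ} (d : ℕ) (m : Fin n → ℤ) (a b : Fin n → ℝ) (y : Fin n → ℝ → ℝ) (A B T : ℝ) :
    Set (Fin n → ℚ) :=
  {q | (∀ l, (q l : ℝ) ∈ Icc (a l) (b l) ∧ ((q l).den : ℝ) ≤ T) ∧
    ∃ P : MvPolynomial (Option (Fin n × Fin 4)) ℤ, P ≠ 0 ∧ (∀ i, P.degreeOf i ≤ d) ∧
      (∀ e, |((P.coeff e : ℤ) : ℝ)| ≤ T ^ A) ∧ ‖MvPolynomial.aeval (numbers m y q) P‖ ≤ T ^ (-B)}

open Pool.Agent.TH828.MJ in
theorem good_half (m : ℤ) : Good ((m : ℝ) / 2) ((-1) ^ m) := by
  unfold Good
  have h1 : 2 * (Real.pi : ℂ) * Complex.I * (((m : ℝ) / 2 : ℝ) : ℂ) = (m : ℂ) * ((Real.pi : ℂ) * Complex.I) := by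
    push_cast
    ring
  rw [h1, Complex.exp_int_mul, Complex.exp_pi_mul_I]
  push_cast
  rfl

open Pool.Agent.TH828.MJ in
theorem point_eq (m : ℤ) (y : ℝ) : point m y = zp ((m : ℝ) / 2) y := by
  unfold point zp
  push_cast
  rfl

open Pool.Agent.TH828.MJ in
theorem four_eq (m : ℤ) (y : ℝ → ℝ) (t : ℝ) (ht : 0 < y t) (k : Fin 4) :
    four (point m (y t)) k =
      Complex.I ^ ((![0, 0, 3, 2] : Fin 4 → ℕ) k) * ((ul ((m : ℝ) / 2) ((-1) ^ m) y k t : ℝ) : ℂ) := by
  have hjj : (j : ℂ → ℂ) = Pool.Agent.TH21.MS.jj := rfl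
  have hg := good_half m
  rw [point_eq]
  fin_cases k
  · show Complex.exp (2 * (Real.pi : ℂ) * Complex.I * zp ((m : ℝ) / 2) (y t)) =
      Complex.I ^ 0 * (((-1) ^ m * Pool.Agent.TH21.MS.xx (y t) : ℝ) : ℂ)
    rw [exp_zp hg, pow_zero, one_mul]
  · show (((zp ((m : ℝ) / 2) (y t)).im : ℝ) : ℂ) = Complex.I ^ 0 * ((y t : ℝ) : ℂ)
    rw [zp_im, pow_zero, one_mul]
  · show deriv j (zp ((m : ℝ) / 2) (y t)) = Complex.I ^ 3 * ((h1 ((m : ℝ) / 2) (y t) : ℝ) : ℂ)
    rw [hjj, jj_d1 hg (y t) ht, Complex.I_pow_three]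
  · show deriv (deriv j) (zp ((m : ℝ) / 2) (y t)) = Complex.I ^ 2 * ((h2 ((m : ℝ) / 2) (y t) : ℝ) : ℂ)
    rw [hjj, jj_d2 hg (y t) ht, Complex.I_sq, neg_one_mul]

open Pool.Agent.TH828.MJ in
/-- Let `n ≥ 1`, let `ψ_l` be nonconstant real polynomials (main case `ψ_l = X`), `m_l` integers (main case `0` and
`1`), `y_l` branches on `[a_l, b_l]`, `A ≥ 0` and `β > 2 - 2 / ((d + 1)^(4 n + 1) + 1)`. There are `B` and `C` such that
for all `T ≥ 1` the number of exceptional `n`-tuples is at most `C T^(2(n - 1) + β)`. -/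
theorem result (n d : ℕ) (hn : 1 ≤ n) (ψ : Fin n → Polynomial ℝ) (hψ : ∀ l, 0 < (ψ l).natDegree) (m : Fin n → ℤ)
    (a b : Fin n → ℝ) (hab : ∀ l, a l < b l) (y : Fin n → ℝ → ℝ)
    (hy : ∀ l, IsBranch (ψ l) (m l) (a l) (b l) (y l))
    (A β : ℝ) (hA : 0 ≤ A) (hβ : 2 - 2 / (((d : ℝ) + 1) ^ (4 * n + 1) + 1) < β) :
    ∃ B C : ℝ, ∀ T : ℝ, 1 ≤ T → (Exceptional d m a b y A B T).Finite ∧
      ((Exceptional d m a b y A B T).ncard : ℝ) ≤ C * T ^ (2 * ((n : ℝ) - 1) + β) := by
  have hpos : ∀ l, ∀ t ∈ Icc (a l) (b l), 0 < y l t := fun l t ht => ((hy l).2 t ht).1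
  have hj : ∀ l, ∀ t ∈ Icc (a l) (b l), (ψ l).eval (h0 ((m l : ℝ) / 2) (y l t)) = t := by
    intro l t ht
    have e1 := ((hy l).2 t ht).2
    have e2 : j (point (m l) (y l t)) = algebraMap ℝ ℂ (h0 ((m l : ℝ) / 2) (y l t)) := by
      rw [point_eq]
      exact jj_zp (good_half (m l)) (y l t)
    rw [e2, Polynomial.aeval_algebraMap_apply, Polynomial.coe_aeval_eq_eval] at e1
    exact Complex.ofReal_injective e1
  have han : ∀ l k, AnalyticOnNhd ℝ (ul ((m l : ℝ) / 2) ((-1) ^ m l) (y l) k) (Icc (a l) (b l)) := by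
    intro l k t ht
    have e1 := (hy l).1 t ht
    have e2 : y l t ∈ Ioi (0 : ℝ) := hpos l t ht
    fin_cases k
    · exact analyticAt_const.mul ((Pool.Agent.TH21.MS.xx_an (y l t) (mem_univ _)).comp e1)
    · exact e1
    · exact (h1_an ((m l : ℝ) / 2) (y l t) e2).comp e1
    · exact (h2_an ((m l : ℝ) / 2) (y l t) e2).comp e1
  obtain ⟨B, C, h⟩ := count3 n d hn (fun l => ul ((m l : ℝ) / 2) ((-1) ^ m l) (y l))
    (![0, 0, 3, 2] : Fin 4 → ℕ) a b hab han
    (fun l => rindL (good_half (m l)) (ψ l) (hψ l) (a l) (b l) (hab l) (y l) (hy l).1 (hpos l) (hj l) d)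
    A β hA (by rw [Fintype.card_fin]; exact hβ)
  refine ⟨B, C, fun T hT => ?_⟩
  have hset : Exceptional d m a b y A B T = ExcJ n d
      (fun l => ul ((m l : ℝ) / 2) ((-1) ^ m l) (y l)) (![0, 0, 3, 2] : Fin 4 → ℕ) a b A B T := by
    ext q
    simp only [Exceptional, ExcJ, Set.mem_ofPred_eq]
    refine and_congr_right fun hq => ?_
    have heq : numbers m y q = numJ
        (fun l => ul ((m l : ℝ) / 2) ((-1) ^ m l) (y l)) (![0, 0, 3, 2] : Fin 4 → ℕ) q := by
      funext i
      cases i with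
      | none => rfl
      | some p => exact four_eq (m p.1) (y p.1) (q p.1) (hpos p.1 _ (hq p.1).1) p.2
    rw [heq]
  have h3 := h T hT
  rw [← hset] at h3
  exact h3

end Pool.Agent.Results.MP_47914d_nt.RationalInvariants
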